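import Pool.Agent.W845.PM.Base

set_option autoImplicit false
open scoped Classical
open Filter Topology MeasureTheory ProbabilityTheory
open scoped ENNReal NNReal BigOperators

namespace Pool.Agent.W845.PM

theorem af : S_FIX → S_TEQ → S_ID → S_AF := by
  intro hfix hteq hid c
  obtain ⟨x, hx, hlim⟩ := hfix
  have h1 := hteq c x ((Pm c) {ω | x ω ≠ 0}).toReal _ hx rfl rfl
  refine ⟨((Pm c) {ω | x ω ≠ 0}).toReal, ENNReal.toReal_nonneg, ?_, ?_, ?_⟩
  · exact measureReal_le_one
  · rw [← h1.1]
    exact h1.2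
  · rw [← hid c x _ hx rfl]
    exact hlim c

end Pool.Agent.W845.PM
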